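import Pool.Agent.H17.EQ.TargetsQ
import Pool.Agent.H17.VG.TT

/-!
# (MV3) three zeros are moved to `0, 1, ∞`
-/

set_option autoImplicit false

namespace Pool.Agent.H56.EE.MV3

open MvPolynomial SC Pool.Agent.H27.LV Pool.Agent.H17.VG Pool.Agent.H30.EE Pool.Agent.H17.EQ

variable {K : Type} [Field K] {n r d : ℕ}

/-- value at the point with parameter `t` -/
noncomputable def vl (F : MvPolynomial (Fin (n + 1)) K) (z : Fin (r + 1) → Fin (n + 1) → K)
    (t : K) : K := eval (fun j => ∑ i : Fin (r + 1), t ^ (i : ℕ) * z i j) F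

lemma resC_eval (F : MvPolynomial (Fin (n + 1)) K) (z : Fin (r + 1) → Fin (n + 1) → K) (t : K) :
    (resC z F).eval t = vl F z t := by
  have h : (Polynomial.aeval t : Polynomial K →ₐ[K] K).comp
      (aeval (fun i => ∑ j : Fin (r + 1), Polynomial.C (z j i) *
        (Polynomial.X : Polynomial K) ^ (j : ℕ))) =
      aeval (fun j => ∑ i : Fin (r + 1), t ^ (i : ℕ) * z i j) := by
    apply algHom_ext
    intro i
    rw [AlgHom.comp_apply, aeval_X, aeval_X, map_sum]
    refine Finset.sum_congr rfl fun j _ => ?_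
    rw [map_mul, map_pow, Polynomial.aeval_C, Polynomial.aeval_X, mul_comm]
    rfl
  have h1 := congrArg (fun φ : MvPolynomial (Fin (n + 1)) K →ₐ[K] K => φ F) h
  have h2 : (Polynomial.aeval t : Polynomial K →ₐ[K] K) (resC z F) =
      aeval (fun j => ∑ i : Fin (r + 1), t ^ (i : ℕ) * z i j) F := h1
  rw [Polynomial.coe_aeval_eq_eval] at h2
  rw [h2, aeval_eq_eval]
  rfl

lemma vl_zero (F : MvPolynomial (Fin (n + 1)) K) (z : Fin (r + 1) → Fin (n + 1) → K) :
    vl F z 0 = eval (z 0) F := by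
  unfold vl
  congr 1
  congr 1
  funext j
  rw [Fin.sum_univ_succ]
  simp

lemma smul_hom {F : MvPolynomial (Fin (n + 1)) K} (hF : F.IsHomogeneous d) (c : K)
    (x : Fin (n + 1) → K) (h : eval x F = 0) : eval (fun j => c * x j) F = 0 := by
  rw [Pool.Agent.H17.VG.TT.eval_smul_hom hF, h, mul_zero]

lemma vl_rev {F : MvPolynomial (Fin (n + 1)) K} (hF : F.IsHomogeneous d)
    (z : Fin (r + 1) → Fin (n + 1) → K) {t : K} (ht : t ≠ 0) (h : vl F z t = 0) :
    vl F (fun i => z (Fin.rev i)) t⁻¹ = 0 := by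
  unfold vl at *
  have h1 : (fun j => ∑ i : Fin (r + 1), t⁻¹ ^ (i : ℕ) * z (Fin.rev i) j) =
      fun j => (t⁻¹) ^ r * ∑ i : Fin (r + 1), t ^ (i : ℕ) * z i j := by
    funext j
    rw [Finset.mul_sum]
    refine Fintype.sum_equiv Fin.revPerm _ _ fun i => ?_
    rw [Fin.revPerm_apply, ← mul_assoc]
    congr 1
    have h2 : ((Fin.rev i : Fin (r + 1)) : ℕ) + (i : ℕ) = r := by
      rw [Fin.val_rev]
      have := i.2
      omega
    have h3 : t⁻¹ ^ (i : ℕ) * t⁻¹ ^ ((Fin.rev i : Fin (r + 1)) : ℕ) = t⁻¹ ^ r := by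
      rw [← pow_add, add_comm, h2]
    rw [← h3, mul_assoc, ← mul_pow, inv_mul_cancel₀ ht, one_pow, mul_one]
  rw [h1]
  exact smul_hom hF _ _ h

lemma chg_trans {z z' z'' : Fin (r + 1) → Fin (n + 1) → K} (h : Chg z z') (h' : Chg z' z'') :
    Chg z z'' :=
  ⟨h'.ind, fun e G hG h0 => h'.van e G hG (h.van e G hG h0)⟩

/-- two finite zeros and a zero at infinity -/
lemma case2 [CharZero K] (hOPS : T_OPS) {F : MvPolynomial (Fin (n + 1)) K}
    (hF : F.IsHomogeneous d) (z : Fin (r + 1) → Fin (n + 1) → K) (hz : LinearIndependent K z)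
    {u w : K} (huw : u ≠ w) (h1 : vl F z u = 0) (h2 : vl F z w = 0)
    (h3 : eval (z (Fin.last r)) F = 0) :
    ∃ z' : Fin (r + 1) → Fin (n + 1) → K, Chg z z' ∧ eval (z' 0) F = 0 ∧
      eval (fun j => ∑ i, z' i j) F = 0 ∧ eval (z' (Fin.last r)) F = 0 := by
  obtain ⟨y, hy1, hy2, hy3⟩ := (hOPS K n r z hz).1 u
  have hy0 : vl F y 0 = 0 := by
    unfold vl at *
    simp_rw [hy3, zero_add]
    exact h1
  have hyw : vl F y (w - u) = 0 := by
    unfold vl at *
    simp_rw [hy3, sub_add_cancel]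
    exact h2
  have hne : w - u ≠ 0 := sub_ne_zero.2 (Ne.symm huw)
  have hsc := (hOPS K n r y hy1.ind).2.1 (w - u) hne
  refine ⟨_, chg_trans hy1 hsc, ?_, ?_, ?_⟩
  · apply smul_hom hF
    rw [← vl_zero]
    exact hy0
  · exact hyw
  · apply smul_hom hF
    rw [hy2]
    exact h3

theorem pf_MV3 (hOPS : T_OPS) : T_MV3 := by
  intro K _ _ n r d F z hF _ _ hz h
  rcases h with ⟨α, β, γ, hab, hbg, hag, h1, h2, h3⟩ | ⟨α, β, hab, h1, h2, h3⟩
  · rw [resC_eval] at h1 h2 h3
    obtain ⟨y, hy1, hy2, hy3⟩ := (hOPS K n r z hz).1 α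
    have hs : ∀ t, vl F y t = vl F z (t + α) := by
      intro t
      unfold vl
      simp_rw [hy3]
    have hy0 : eval (y 0) F = 0 := by
      rw [← vl_zero, hs, zero_add]
      exact h1
    have hb : β - α ≠ 0 := sub_ne_zero.2 (Ne.symm hab)
    have hg : γ - α ≠ 0 := sub_ne_zero.2 (Ne.symm hag)
    have hyb : vl F y (β - α) = 0 := by
      rw [hs, sub_add_cancel]
      exact h2
    have hyg : vl F y (γ - α) = 0 := by
      rw [hs, sub_add_cancel]
      exact h3
    have hinv := (hOPS K n r y hy1.ind).2.2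
    obtain ⟨z', hz1, hz2⟩ := case2 hOPS hF (fun i => y (Fin.rev i)) hinv.ind
      (u := (β - α)⁻¹) (w := (γ - α)⁻¹)
      (fun h => hbg (by
        have h5 := inv_injective h
        exact sub_left_injective h5)) (vl_rev hF y hb hyb) (vl_rev hF y hg hyg) (by
        rw [Fin.rev_last]
        exact hy0)
    exact ⟨z', chg_trans (chg_trans hy1 hinv) hz1, hz2⟩
  · rw [resC_eval] at h1 h2
    exact case2 hOPS hF z hz hab h1 h2 h3

end Pool.Agent.H56.EE.MV3
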