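import Pool.Agent.H25.EE.TargetsA

/-! Board ee_modules, module FAC: factorization. -/

set_option autoImplicit false

open Polynomial Finset

namespace Pool.Agent.H56.EE

open Pool.Agent.H25.EE

private theorem inj : Function.Injective (Int.castRingHom ℂ) := Int.cast_injective

private theorem toC_ne {P : ℤ[X]} (h : P ≠ 0) : toC P ≠ 0 := by
  unfold toC
  rwa [Ne, Polynomial.map_eq_zero_iff inj]

private theorem toC_mul (P Q : ℤ[X]) : toC (P * Q) = toC P * toC Q := by
  unfold toC
  exact Polynomial.map_mul _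

private theorem hM_mul {P Q : ℤ[X]} (hP : P ≠ 0) (hQ : Q ≠ 0) : hM (P * Q) = hM P + hM Q := by
  unfold hM
  rw [toC_mul]
  exact logMahlerMeasure_mul_eq_add_logMahlerMeasure (mul_ne_zero (toC_ne hP) (toC_ne hQ))

private theorem rts_mul {P Q : ℤ[X]} (hP : P ≠ 0) (hQ : Q ≠ 0) : rts (P * Q) = rts P + rts Q := by
  unfold rts
  rw [toC_mul]
  exact roots_mul (mul_ne_zero (toC_ne hP) (toC_ne hQ))

private theorem hM_nonneg {P : ℤ[X]} (hP : P ≠ 0) : 0 ≤ hM P := by
  unfold hM
  rw [logMahlerMeasure_eq_log_MahlerMeasure]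
  exact Real.log_nonneg (one_le_mahlerMeasure_of_ne_zero hP)

private theorem prod_fac (F : Multiset ℤ[X]) (hF : ∀ R ∈ F, R ≠ 0) :
    F.prod ≠ 0 ∧ (F.map fun R => (R.natDegree : ℝ)).sum = F.prod.natDegree ∧
      (F.map hM).sum = hM F.prod ∧ (F.map rts).sum = rts F.prod := by
  induction F using Multiset.induction_on with
  | empty =>
    refine ⟨by simp, by simp, ?_, ?_⟩
    · simp [hM, toC]
    · simp [rts, toC]
  | cons R F ih =>
    obtain ⟨h0, h1, h2, h3⟩ := ih fun Q hQ => hF Q (Multiset.mem_cons_of_mem hQ)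
    have hR : R ≠ 0 := hF R (Multiset.mem_cons_self R F)
    rw [Multiset.prod_cons, Multiset.map_cons, Multiset.sum_cons, Multiset.map_cons,
      Multiset.sum_cons, Multiset.map_cons, Multiset.sum_cons, h1, h2, h3, hM_mul hR h0,
      rts_mul hR h0, natDegree_mul hR h0]
    exact ⟨mul_ne_zero hR h0, by push_cast; rfl, rfl, rfl⟩

private theorem plen_ge {D : ℤ[X]} (hD : D ≠ 0) : 1 ≤ plen D := by
  unfold plen
  have hm : D.natDegree ∈ D.support := natDegree_mem_support_of_nonzero hD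
  have h1 : (1 : ℝ) ≤ |(D.coeff D.natDegree : ℝ)| := by
    have h2 : D.coeff D.natDegree ≠ 0 := mem_support_iff.1 hm
    have h3 : 1 ≤ |D.coeff D.natDegree| := Int.one_le_abs h2
    exact_mod_cast h3
  exact h1.trans (Finset.single_le_sum (f := fun i => |(D.coeff i : ℝ)|)
    (fun i _ => abs_nonneg _) hm)

private theorem hM_le {D : ℤ[X]} (hD : D ≠ 0) : hM D ≤ Real.log (plen D) := by
  unfold hM
  rw [logMahlerMeasure_eq_log_MahlerMeasure]
  refine Real.log_le_log (mahlerMeasure_pos_of_ne_zero (toC_ne hD)) ?_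
  refine (mahlerMeasure_le_sum_norm_coeff _).trans (le_of_eq ?_)
  unfold plen toC
  rw [Polynomial.sum_def, support_map_of_injective _ inj]
  refine Finset.sum_congr rfl fun i _ => ?_
  rw [coeff_map]
  simp

/-- factorization -/
theorem pf_FAC : T_FAC := by
  intro D hD
  obtain ⟨F, hF⟩ : ∃ F : Multiset ℤ[X], F = UniqueFactorizationMonoid.factors D := ⟨_, rfl⟩
  have hirr : ∀ R ∈ F, Irreducible R := by
    intro R hR
    rw [hF] at hR
    exact UniqueFactorizationMonoid.irreducible_of_factor R hR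
  have hdvd : ∀ R ∈ F, R ∣ D := by
    intro R hR
    rw [hF] at hR
    exact UniqueFactorizationMonoid.dvd_of_mem_factors hR
  obtain ⟨h0, h1, h2, h3⟩ := prod_fac F fun R hR => (hirr R hR).ne_zero
  have hass : Associated F.prod D := by
    rw [hF]
    exact UniqueFactorizationMonoid.factors_prod hD
  obtain ⟨u, hu⟩ := hass
  obtain ⟨r, hr, hru⟩ := Polynomial.isUnit_iff.1 u.isUnit
  have hr1 : r = 1 ∨ r = -1 := Int.isUnit_iff.1 hr
  have hrr : ‖((r : ℤ) : ℂ)‖ = 1 := by
    rcases hr1 with rfl | rfl <;> simp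
  have hr0 : r ≠ 0 := by
    rcases hr1 with rfl | rfl <;> norm_num
  have hu0 : (C r : ℤ[X]) ≠ 0 := by
    rwa [Ne, C_eq_zero]
  have hDe : D = F.prod * C r := by rw [← hu, ← hru]
  have htC : toC (C r) = C ((r : ℤ) : ℂ) := by
    unfold toC
    rw [map_C]
    rfl
  have e1 : D.natDegree = F.prod.natDegree := by
    rw [hDe, natDegree_mul h0 hu0, natDegree_C, add_zero]
  have e2 : hM D = hM F.prod := by
    have h4 : hM (C r) = 0 := by
      unfold hM
      rw [htC, logMahlerMeasure_const, hrr, Real.log_one]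
    rw [hDe, hM_mul h0 hu0, h4, add_zero]
  have e3 : rts D = rts F.prod := by
    have h4 : rts (C r) = 0 := by
      unfold rts
      rw [htC, roots_C]
    rw [hDe, rts_mul h0 hu0, h4, add_zero]
  refine ⟨F, fun R hR => ⟨hirr R hR, hdvd R hR, hM_nonneg (hirr R hR).ne_zero⟩, ?_, ?_, ?_,
    plen_ge hD⟩
  · rw [h1, e1]
  · rw [h2, ← e2]
    exact hM_le hD
  · rw [h3, e3]

end Pool.Agent.H56.EE
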