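import Pool.Agent.H30.EE.TargetsH

/-!
# (CBM) minors and change of basis
-/

set_option autoImplicit false

namespace Pool.Agent.H56.EE

open Pool.Agent.H30.EE

theorem pf_CBM : T_CBM := by
  intro K _ m ι _ u
  classical
  have : Fintype ι := Fintype.ofFinite ι
  refine ⟨⟨fun hu h0 => ?_, fun h => ?_⟩, fun A => ?_⟩
  · obtain ⟨M, hM⟩ : ∃ M : Matrix (Fin m) ι K, M = Matrix.of u := ⟨_, rfl⟩
    have hrow : LinearIndependent K M.row := by
      rw [hM]; exact hu
    have hrk : M.rank = m := by
      rw [hrow.rank_matrix, Fintype.card_fin]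
    have hsp := M.rank_eq_finrank_span_cols
    rw [hrk] at hsp
    have hex : ∃ f : Fin (Module.finrank K (Submodule.span K (Set.range M.col))) → (Fin m → K),
        (∀ i, f i ∈ Set.range M.col) ∧ LinearIndependent K f := by
      obtain ⟨f, hf1, -, hf3⟩ := Submodule.exists_fun_fin_finrank_span_eq K (Set.range M.col)
      exact ⟨f, hf1, hf3⟩
    rw [← hsp] at hex
    obtain ⟨f, hf1, hf3⟩ := hex
    choose J hJ using hf1
    have h1 : (Matrix.of fun a b : Fin m => u a (J b)).col = f := by
      funext b
      rw [← hJ b, hM]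
      rfl
    have h2 : IsUnit (Matrix.of fun a b : Fin m => u a (J b)) := by
      rw [← Matrix.linearIndependent_cols_iff_isUnit, h1]
      exact hf3
    rw [Matrix.isUnit_iff_isUnit_det] at h2
    exact h2.ne_zero (congrFun h0 J)
  · obtain ⟨J, hJ⟩ := Function.ne_iff.1 h
    have h1 : LinearIndependent K (Matrix.of fun a b : Fin m => u a (J b)).row :=
      Matrix.linearIndependent_rows_of_det_ne_zero hJ
    exact LinearIndependent.of_comp (LinearMap.funLeft K K J) h1
  · funext J
    change (Matrix.of fun a b : Fin m => ∑ c, A a c * u c (J b)).det =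
      A.det * (Matrix.of fun a b : Fin m => u a (J b)).det
    rw [← Matrix.det_mul]
    rfl

end Pool.Agent.H56.EE
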