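import Pool.Agent.H30.EE.TargetsG
import Pool.Agent.H56.EE.CBM
import Pool.Agent.H27.LV.Gen
import Pool.Agent.H27.LV.Curve

/-!
# (VLL) superadditivity at one place
-/

set_option autoImplicit false

namespace Pool.Agent.H56.EE

open MvPolynomial SC Pool.Agent.H27.LV Pool.Agent.H17.VG Pool.Agent.H30.EE

variable {k K : Type} [Field k] [Field K] [Algebra k K] {n r : ℕ}

lemma resC_mul (z : Fin (r + 1) → Fin (n + 1) → K) (G H : MvPolynomial (Fin (n + 1)) K) :
    resC z (G * H) = resC z G * resC z H := by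
  unfold resC
  rw [map_mul]

lemma resC_frm {a : ℕ} (z : Fin (r + 1) → Fin (n + 1) → K) (c : Mon (n + 1) a → K) (i : ℕ) :
    (resC z (frm c)).coeff i = ∑ M : Mon (n + 1) a, c M * (resC z (mono K M.1)).coeff i := by
  unfold resC frm
  rw [map_sum, Polynomial.finset_sum_coeff]
  refine Finset.sum_congr rfl fun M _ => ?_
  rw [map_mul, aeval_C, Polynomial.algebraMap_eq, Polynomial.coeff_C_mul]

lemma ge_coeff_frm (v : DV k K) {a : ℕ} (c : Mon (n + 1) a → K) (hc : ∀ M, ge v 0 (c M))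
    (m : Fin (n + 1) →₀ ℕ) : ge v 0 (coeff m (frm c)) := by
  classical
  unfold frm
  rw [coeff_sum]
  refine ge_sum v _ _ _ fun M _ => ?_
  rw [coeff_C_mul]
  unfold mono
  rw [coeff_monomial]
  split_ifs
  · rw [mul_one]; exact hc M
  · rw [mul_zero]; exact ge_zero v 0

lemma ge_coeff_mul (v : DV k K) (P Q : MvPolynomial (Fin (n + 1)) K)
    (hP : ∀ m, ge v 0 (coeff m P)) (hQ : ∀ m, ge v 0 (coeff m Q)) (m : Fin (n + 1) →₀ ℕ) :
    ge v 0 (coeff m (P * Q)) := by
  classical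
  rw [coeff_mul]
  refine ge_sum v _ _ _ fun p _ => ?_
  have h := (hP p.1).mul (hQ p.2)
  rwa [add_zero] at h

/-- an integral combination with given leading index -/
lemma lead {a : ℕ} (z : Fin (r + 1) → Fin (n + 1) → K)
    (hdeg : ∀ G : MvPolynomial (Fin (n + 1)) K, G.IsHomogeneous a →
      (resC z G).natDegree ≤ r * a) (c : Mon (n + 1) a → K) (i : Fin (r * a + 1))
    (h : ∀ l, i < l → ∑ M, c M * RM a z l M = 0) : (resC z (frm c)).natDegree ≤ i := by
  rw [Polynomial.natDegree_le_iff_coeff_eq_zero]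
  intro t ht
  by_cases h1 : t < r * a + 1
  · have h2 := h ⟨t, h1⟩ (by rw [Fin.lt_def]; exact ht)
    rw [resC_frm]
    exact h2
  · exact Polynomial.coeff_eq_zero_of_natDegree_lt
      (lt_of_le_of_lt (hdeg _ (frm_homog c)) (by omega))

theorem pf_VLL (_hMO : T_MO) (hQDM : T_QDM) (hTRI : T_TRI) (hWGT : T_WGT) : T_VLL := by
  intro k K _ _ _ v n r a b z hz
  have hne : ∀ a : ℕ, mnr (RM a z) ≠ 0 := fun a =>
    (pf_CBM K _ _ (RM a z)).1.1 (hQDM K r n a z hz).2.2.2
  have hdeg : ∀ (a : ℕ) (G : MvPolynomial (Fin (n + 1)) K), G.IsHomogeneous a →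
      (resC z G).natDegree ≤ r * a := fun a => (hQDM K r n a z hz).2.1
  obtain ⟨e, he, heT⟩ := hTRI k K v (r * a) (Mon (n + 1) a) (RM a z) (hne a)
  obtain ⟨e', he', heT'⟩ := hTRI k K v (r * b) (Mon (n + 1) b) (RM b z) (hne b)
  obtain ⟨e'', he'', heT''⟩ := hTRI k K v (r * (a + b)) (Mon (n + 1) (a + b)) (RM (a + b) z)
    (hne (a + b))
  have key : ∀ (i : Fin (r * a + 1)) (j : Fin (r * b + 1)) (l : Fin (r * (a + b) + 1)),
      (l : ℕ) = i + j → e'' l ≤ e i + e' j := by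
    intro i j l hl
    obtain ⟨c, hc0, hc1, hc2, hc3⟩ := (heT i).1
    obtain ⟨c', hc0', hc1', hc2', hc3'⟩ := (heT' j).1
    have hP : (resC z (frm c)).natDegree ≤ i := lead z (hdeg a) c i hc1
    have hQ : (resC z (frm c')).natDegree ≤ j := lead z (hdeg b) c' j hc1'
    have hPi : (resC z (frm c)).coeff i = ∑ M, c M * RM a z i M := resC_frm z c i
    have hQj : (resC z (frm c')).coeff j = ∑ M, c' M * RM b z j M := resC_frm z c' j
    have hG : (frm c * frm c').IsHomogeneous (a + b) := (frm_homog c).mul (frm_homog c')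
    have hfr := frm_coeff hG
    have hco : ∀ t : Fin (r * (a + b) + 1),
        ∑ M : Mon (n + 1) (a + b), coeff (fs M.1) (frm c * frm c') * RM (a + b) z t M =
          (resC z (frm c) * resC z (frm c')).coeff t := by
      intro t
      rw [← resC_mul, ← hfr, resC_frm, hfr]
      rfl
    have h1 := (heT'' l).2 (fun M => coeff (fs M.1) (frm c * frm c'))
      (fun M => ge_coeff_mul v _ _ (ge_coeff_frm v c hc0) (ge_coeff_frm v c' hc0') _)
      (fun t ht => by
        rw [hco t]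
        refine Polynomial.coeff_eq_zero_of_natDegree_lt ?_
        refine lt_of_le_of_lt (Polynomial.natDegree_mul_le_of_le hP hQ) ?_
        rw [← hl]
        exact ht)
    rw [hco l, hl, Polynomial.coeff_mul_add_eq_of_natDegree_le hP hQ, hPi, hQj] at h1
    rcases h1 with h1 | h1
    · exact absurd h1 (mul_ne_zero hc2 hc2')
    · rw [v.ord_mul _ _ hc2 hc2', hc3, hc3'] at h1
      exact h1
  obtain ⟨E, hE⟩ : ∃ E : ℕ → ℚ, ∀ t : Fin (r * a + 1), E t = e t :=
    ⟨fun t => if h : t < r * a + 1 then (e ⟨t, h⟩ : ℚ) else 0, fun t => dif_pos t.2⟩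
  obtain ⟨E', hE'⟩ : ∃ E' : ℕ → ℚ, ∀ t : Fin (r * b + 1), E' t = e' t :=
    ⟨fun t => if h : t < r * b + 1 then (e' ⟨t, h⟩ : ℚ) else 0, fun t => dif_pos t.2⟩
  obtain ⟨E'', hE''⟩ : ∃ E'' : ℕ → ℚ, ∀ t : Fin (r * (a + b) + 1), E'' t = e'' t :=
    ⟨fun t => if h : t < r * (a + b) + 1 then (e'' ⟨t, h⟩ : ℚ) else 0, fun t => dif_pos t.2⟩
  have hw := hWGT (r * a) (r * b) E E' E'' (by
    intro i hi j hj
    have h1 := key ⟨i, by omega⟩ ⟨j, by omega⟩ ⟨i + j, by nlinarith⟩ rfl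
    have h2 := hE ⟨i, by omega⟩
    have h3 := hE' ⟨j, by omega⟩
    have h4 := hE'' ⟨i + j, by nlinarith⟩
    rw [show E'' (i + j) = _ from h4, show E i = _ from h2, show E' j = _ from h3]
    exact_mod_cast h1)
  have hN : r * a + r * b + 1 = r * (a + b) + 1 := by ring
  rw [hN, Finset.sum_range, Finset.sum_range, Finset.sum_range, Finset.sum_congr rfl
    fun t _ => hE t, Finset.sum_congr rfl fun t _ => hE' t,
    Finset.sum_congr rfl fun t _ => hE'' t] at hw
  rw [← he, ← he', ← he'']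
  push_cast at hw ⊢
  have hN2 : (r : ℚ) * (a + b) + 1 = r * a + r * b + 1 := by ring
  rw [hN2]
  exact hw

end Pool.Agent.H56.EE
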